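import Mathlib

set_option autoImplicit false

namespace Pool.Agent.Results.MP_09e095_co.Wrap

open Finset Pointwise

/-- arithmetic progression `{g, g + d, …, g + (N - 1) d}` with `N ≥ 2`, not a singleton -/
def IsAP {n : ℕ} (P : Finset (ZMod n)) : Prop :=
  ∃ (g d : ZMod n) (N : ℕ), d ≠ 0 ∧ 2 ≤ N ∧ P = (range N).image fun i : ℕ => g + (i : ZMod n) * d

/-- `H` is proper, and conditions (a) and (b) hold -/
def AB {n : ℕ} (A P : Finset (ZMod n)) (H : AddSubgroup (ZMod n)) : Prop :=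
  H ≠ ⊤ ∧ (∀ a ∈ A, ∃ p ∈ P, ∃ x ∈ H, a = p + x) ∧
    (((P + P).card : ℝ) - P.card) * Nat.card H ≤ ((A + A).card : ℝ) - A.card

theorem mem_iff {n : ℕ} [NeZero n] (H : AddSubgroup (ZMod n)) (x : ZMod n) :
    x ∈ H ↔ Nat.card H • x = 0 := by
  classical
  have h1 : ∀ y ∈ H, Nat.card H • y = 0 := fun y hy => by
    have := card_nsmul_eq_zero' (G := H) (x := ⟨y, hy⟩)
    exact congrArg Subtype.val this
  refine ⟨h1 x, fun hx => ?_⟩
  have h2 := IsAddCyclic.card_nsmul_eq_zero_le (α := ZMod n) (n := Nat.card H) Nat.card_pos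
  have h3 : (univ.filter (· ∈ H)).card = Nat.card H := by
    rw [Nat.card_eq_fintype_card, Fintype.card_subtype]
  have h4 : univ.filter (· ∈ H) = univ.filter (fun y : ZMod n => Nat.card H • y = 0) :=
    eq_of_subset_of_card_le (fun y hy => by simpa using h1 y (by simpa using hy)) (h3 ▸ h2)
  have : x ∈ univ.filter (· ∈ H) := by rw [h4]; simpa using hx
  simpa using this

theorem card_pow {k : ℕ} (H : AddSubgroup (ZMod (2 ^ k))) : ∃ e ≤ k, Nat.card H = 2 ^ e := by
  have := H.card_addSubgroup_dvd_card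
  rw [Nat.card_zmod] at this
  exact (Nat.dvd_prime_pow Nat.prime_two).mp this

theorem coset {k : ℕ} (H : AddSubgroup (ZMod (2 ^ k))) (F : Finset (ZMod (2 ^ k)))
    (h1 : (F + F).card ≤ F.card) (h2 : F.card < Nat.card H) :
    ∀ p ∈ F, ∀ q ∈ F, p - q ∈ H := by
  intro p hp q hq
  have e : F.image (q + ·) = F + F := eq_of_subset_of_card_le
    (fun y hy => by
      obtain ⟨f, hf, rfl⟩ := mem_image.mp hy
      exact add_mem_add hq hf)
    (by rw [card_image_of_injective _ (add_right_injective q)]; exact h1)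
  have st : ∀ f ∈ F, f + (p - q) ∈ F := fun f hf => by
    have : p + f ∈ F.image (q + ·) := e ▸ add_mem_add hp hf
    obtain ⟨f', hf', h⟩ := mem_image.mp this
    have : f + (p - q) = f' := by linear_combination -h
    exact this ▸ hf'
  have it : ∀ j : ℕ, q + j • (p - q) ∈ F := fun j => by
    induction j with
    | zero => simpa using hq
    | succ j ih => rw [succ_nsmul, ← add_assoc]; exact st _ ih
  have ho : addOrderOf (p - q) ≤ F.card := by
    apply le_card_of_inj_on_range (fun j => q + j • (p - q)) (fun j _ => it j)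
    intro i hi j hj h
    exact nsmul_injOn_Iio_addOrderOf hi hj (add_left_cancel h)
  obtain ⟨e, -, he⟩ := card_pow H
  have hd := addOrderOf_dvd_natCard (p - q)
  rw [Nat.card_zmod] at hd
  obtain ⟨a, -, ha⟩ := (Nat.dvd_prime_pow Nat.prime_two).mp hd
  rw [mem_iff, ← addOrderOf_dvd_iff_nsmul_eq_zero, ha, he]
  apply pow_dvd_pow
  have : 2 ^ a < 2 ^ e := by omega
  exact ((Nat.pow_lt_pow_iff_right (by norm_num)).mp this).le

section fib
variable {G : Type} [CommRing G] [DecidableEq G]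

open Classical in
/-- the part of `S` in the coset `j + L` -/
noncomputable def fib (L : AddSubgroup G) (S : Finset G) (j : ℕ) : Finset G :=
  S.filter fun x => x - (j : G) ∈ L

theorem fib_add (L : AddSubgroup G) (P : Finset G) (i j : ℕ) (h : (fib L P j).Nonempty) :
    (fib L P i).card ≤ (fib L (P + P) (i + j)).card := by
  classical
  obtain ⟨q, hq⟩ := h
  simp only [fib, mem_filter] at hq
  apply card_le_card_of_injOn (· + q)
  · intro p hp
    simp only [fib, coe_filter, Set.mem_ofPred_eq] at hp ⊢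
    refine ⟨add_mem_add hp.1 hq.1, ?_⟩
    convert L.add_mem hp.2 hq.2 using 1
    push_cast; ring
  · intro a _ b _ h
    exact add_right_cancel h

theorem excess (L : AddSubgroup G) (P : Finset G) (h0 : (fib L P 0).Nonempty) (J : Finset ℕ)
    (hJ : ∀ i ∈ J, ∀ j ∈ J, i ≠ j → (i : G) - j ∉ L) :
    ∑ j ∈ J, (fib L (P + P) j).card + P.card ≤ (P + P).card + ∑ j ∈ J, (fib L P j).card := by
  classical
  obtain ⟨q, hq⟩ := h0
  simp only [fib, mem_filter, Nat.cast_zero, sub_zero] at hq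
  set E := (P + P) \ P.image (q + ·) with hE
  have hs : P.image (q + ·) ⊆ P + P := fun y hy => by
    obtain ⟨f, hf, rfl⟩ := mem_image.mp hy
    exact add_mem_add hq.1 hf
  have h1 : E.card + P.card = (P + P).card := by
    rw [hE, ← card_sdiff_add_card_eq_card hs, card_image_of_injective _ (add_right_injective q)]
  have h2 : ∑ j ∈ J, (fib L E j).card ≤ E.card := by
    rw [← card_biUnion]
    · exact card_le_card (biUnion_subset.mpr fun j _ => filter_subset _ _)
    · intro i hi j hj hij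
      refine disjoint_left.mpr fun x hx hx' => hJ i hi j hj hij ?_
      simp only [fib, mem_filter] at hx hx'
      convert L.sub_mem hx'.2 hx.2 using 1
      ring
  have h3 : ∀ j ∈ J, (fib L (P + P) j).card ≤ (fib L E j).card + (fib L P j).card := fun j _ => by
    have : fib L (P + P) j ⊆ fib L E j ∪ (fib L P j).image (q + ·) := fun x hx => by
      simp only [fib, mem_filter, mem_union, mem_image, hE, mem_sdiff] at hx ⊢
      by_cases h : ∃ a ∈ P, q + a = x
      · obtain ⟨a, ha, rfl⟩ := h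
        refine Or.inr ⟨a, ⟨ha, ?_⟩, rfl⟩
        convert L.sub_mem hx.2 hq.2 using 1
        ring
      · exact Or.inl ⟨⟨hx.1, h⟩, hx.2⟩
    exact (card_le_card this).trans ((card_union_le _ _).trans
      (Nat.add_le_add_left card_image_le _))
  have := sum_le_sum h3
  rw [sum_add_distrib] at this
  omega

theorem main_count (L : AddSubgroup G) (P : Finset G) (C : ℕ) (hC : P.card ≤ C)
    (gap : ∀ i ≤ 3 * C + 6, ∀ j ≤ 3 * C + 6, i ≠ j → (i : G) - j ∉ L)
    (h0 : (fib L P 0).Nonempty) (h1 : (fib L P 1).Nonempty) (h3 : (fib L P 3).Nonempty) :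
    (fib L (P + P) 0).card + (fib L P 0).card + (fib L P 3).card + P.card ≤ (P + P).card := by
  classical
  set S : ℕ → Prop := fun j => (fib L P j).Nonempty with hS
  obtain ⟨b, hb, hb'⟩ : ∃ b ≤ C, ∀ j, 3 * b + 4 ≤ j → j ≤ 3 * b + 6 → ¬ S j := by
    by_contra hn
    push Not at hn
    choose! f hf1 hf2 hf3 using hn
    have : ∀ b ≤ C, ∃ p ∈ P, p - (f b : G) ∈ L := fun b hb => by
      obtain ⟨p, hp⟩ := hf3 b hb
      exact ⟨p, by simpa [fib] using hp⟩
    choose! g hg1 hg2 using this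
    have : C + 1 ≤ P.card := by
      apply le_card_of_inj_on_range g (fun i hi => hg1 i (by omega))
      intro i hi j hj h
      by_contra hij
      have a1 := hf1 i (by omega)
      have a2 := hf2 i (by omega)
      have a3 := hf1 j (by omega)
      have a4 := hf2 j (by omega)
      apply gap (f i) (by omega) (f j) (by omega) (by omega)
      convert L.sub_mem (hg2 j (by omega)) (hg2 i (by omega)) using 1
      rw [h]; ring
    omega
  obtain ⟨x, hx3, hxb, hx, hx'⟩ : ∃ x, 3 ≤ x ∧ x ≤ 3 * b + 3 ∧ S x ∧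
      ∀ j, x < j → j ≤ x + 3 → ¬ S j := by
    have a1 : 3 ≤ Nat.findGreatest S (3 * b + 3) := Nat.le_findGreatest (by omega) h3
    have a2 := Nat.findGreatest_le (P := S) (3 * b + 3)
    refine ⟨_, a1, a2, Nat.findGreatest_spec (m := 3) (by omega) h3, fun j h h' => ?_⟩
    by_cases k : j ≤ 3 * b + 3
    · exact Nat.findGreatest_is_greatest h k
    · exact hb' j (by omega) (by omega)
  obtain ⟨z, c, hz1, hzx, hz, hc, hzc, hne⟩ : ∃ z c, 1 ≤ z ∧ z < x ∧ S z ∧ S c ∧ ¬ S (z + c) ∧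
      (z + c < x ∨ z + c = x + 2) := by
    by_cases k : ∃ w, 1 ≤ w ∧ w ≤ x ∧ ¬ S w
    · have a1 := Nat.find_spec k
      have a2 : Nat.find k ≠ 1 := fun h => a1.2.2 (by rw [h]; exact h1)
      have a3 : Nat.find k ≠ x := fun h => a1.2.2 (by rw [h]; exact hx)
      have a4 := Nat.find_min k (m := Nat.find k - 1) (by omega)
      refine ⟨Nat.find k - 1, 1, by omega, by omega, ?_, h1, ?_, by omega⟩
      · by_contra h
        exact a4 ⟨by omega, by omega, h⟩
      · rw [Nat.sub_add_cancel a1.1]; exact a1.2.2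
    · push Not at k
      exact ⟨x - 1, 3, by omega, by omega, k _ (by omega) (by omega), h3,
        hx' _ (by omega) (by omega), by omega⟩
  have hc0 : c ≠ 0 := fun h => hzc (by simpa [h] using hz)
  have ex := excess L P h0 {0, z, z + c, x, x + 1, x + 3} (fun i hi j hj hij =>
    gap i (by simp only [mem_insert, mem_singleton] at hi; omega) j
      (by simp only [mem_insert, mem_singleton] at hj; omega) hij)
  rw [sum_insert (by simp; omega), sum_insert (by simp; omega), sum_insert (by simp; omega),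
    sum_insert (by simp), sum_insert (by simp), sum_singleton,
    sum_insert (by simp; omega), sum_insert (by simp; omega), sum_insert (by simp; omega),
    sum_insert (by simp), sum_insert (by simp), sum_singleton] at ex
  have z0 : ∀ j, ¬ S j → (fib L P j).card = 0 := fun j h => by
    simpa [hS] using h
  have e1 := z0 _ hzc
  have e2 := z0 _ (hx' (x + 1) (by omega) (by omega))
  have e3 := z0 _ (hx' (x + 3) (by omega) (by omega))
  have b1 := fib_add L P 0 z hz
  have b2 := fib_add L P z c hc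
  have b3 := fib_add L P 0 x hx
  have b4 := fib_add L P x 1 h1
  have b5 := fib_add L P 3 x hx
  rw [zero_add] at b1 b3
  rw [add_comm 3 x] at b5
  omega

omit [DecidableEq G] in
/-- a coset of `K` covered by `P + H` -/
theorem cover [Finite G] (L K H : AddSubgroup G) (P : Finset G) (j : ℕ) (hK : K ≤ L) (hH : H ≤ L)
    (h : ∀ y ∈ K, ∃ p ∈ P, ∃ x ∈ H, j + y = p + x) :
    Nat.card K ≤ (fib L P j).card * Nat.card H := by
  classical
  choose f hf g hg e using h
  have hm : ∀ y : K, f y y.2 ∈ fib L P j := fun y => by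
    simp only [fib, mem_filter]
    refine ⟨hf _ _, ?_⟩
    convert L.sub_mem (hK y.2) (hH (hg y y.2)) using 1
    linear_combination -e y y.2
  have := Nat.card_le_card_of_injective
    (fun y : K => ((⟨f y y.2, hm y⟩, ⟨g y y.2, hg y y.2⟩) : fib L P j × H)) (by
      intro a b hab
      simp only [Prod.mk.injEq, Subtype.mk.injEq] at hab
      apply Subtype.ext
      linear_combination e a a.2 - e b b.2 + hab.1 + hab.2)
  simpa [Nat.card_prod] using this

omit [DecidableEq G] in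
theorem card_fib [Fintype G] (L : AddSubgroup G) (j : ℕ) : (fib L univ j).card = Nat.card L := by
  classical
  rw [Nat.card_eq_fintype_card, Fintype.card_subtype]
  apply card_bij (fun x _ => x - (j : G))
  · intro a ha
    simpa [fib] using ha
  · intro a _ b _ h
    linear_combination h
  · intro b hb
    exact ⟨b + j, by simpa [fib] using hb, by ring⟩

end fib

theorem le_of {k : ℕ} (K H : AddSubgroup (ZMod (2 ^ k))) (h : Nat.card K ≤ Nat.card H) :
    K ≤ H := by
  intro x hx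
  obtain ⟨a, -, ha⟩ := card_pow K
  obtain ⟨b, -, hb⟩ := card_pow H
  rw [mem_iff] at hx ⊢
  rw [ha, hb] at h
  rw [ha] at hx
  obtain ⟨c, rfl⟩ := Nat.exists_eq_add_of_le ((Nat.pow_le_pow_iff_right (by norm_num)).mp h)
  rw [hb, pow_add, mul_comm, mul_smul, hx, smul_zero]

theorem zero_iff {k : ℕ} (a : ℕ) (ha : a ≤ k) (z : ℤ)
    (h : (2 : ZMod (2 ^ k)) ^ a * z = 0) : (2 : ℤ) ^ (k - a) ∣ z := by
  have : (((2 : ℤ) ^ a * z : ℤ) : ZMod (2 ^ k)) = 0 := by push_cast; exact h
  rw [ZMod.intCast_zmod_eq_zero_iff_dvd] at this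
  obtain ⟨c, rfl⟩ := Nat.exists_eq_add_of_le ha
  rw [Nat.add_sub_cancel_left]
  push_cast at this
  rw [pow_add] at this
  exact (mul_dvd_mul_iff_left (by positivity)).mp this

theorem gap {u t : ℕ} (L : AddSubgroup (ZMod (2 ^ (u + 2 + t)))) (hL : Nat.card L ≤ 2 ^ (t + 2))
    (B : ℕ) (hB : B < 2 ^ u) : ∀ i ≤ B, ∀ j ≤ B, i ≠ j → (i : ZMod (2 ^ (u + 2 + t))) - j ∉ L := by
  intro i hi j hj hij h
  obtain ⟨e, he, he'⟩ := card_pow L
  rw [mem_iff, he'] at h
  rw [he'] at hL
  have he2 := (Nat.pow_le_pow_iff_right (by norm_num)).mp hL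
  have := zero_iff e he ((i : ℤ) - j) (by simpa using h)
  have h2 : (2 : ℤ) ^ u ∣ (i : ℤ) - j := (pow_dvd_pow _ (by omega)).trans this
  have h3 := Int.le_of_dvd (a := 2 ^ u) (b := |(i : ℤ) - j|) (abs_pos.mpr (by omega))
    ((dvd_abs _ _).mpr h2)
  have : ((B : ℕ) : ℤ) < 2 ^ u := by exact_mod_cast hB
  rcases abs_cases ((i : ℤ) - j) with h | h <;> omega

theorem card_zm {k : ℕ} (a b : ℕ) (h : a + b = k) :
    Nat.card (AddSubgroup.zmultiples ((2 ^ a : ℕ) : ZMod (2 ^ k))) = 2 ^ b := by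
  rw [Nat.card_zmultiples, ZMod.addOrderOf_coe _ (by positivity), Nat.gcd_eq_right
    (pow_dvd_pow _ (by omega)), ← h, pow_add, Nat.mul_div_cancel_left _ (by positivity)]

theorem bounded {u t C : ℕ} (hu : 3 * C + 6 < 2 ^ u) (ht : C * C < 2 ^ t)
    (K1 K2 H : AddSubgroup (ZMod (2 ^ (u + 2 + t)))) (k1 : Nat.card K1 = 2 ^ t)
    (k2 : Nat.card K2 = 2 * 2 ^ t) (hH : H ≠ ⊤) (P : Finset (ZMod (2 ^ (u + 2 + t))))
    (c0 : ∀ y ∈ K2, ∃ p ∈ P, ∃ x ∈ H, (0 : ℕ) + y = p + x)
    (c1 : ∀ y ∈ K1, ∃ p ∈ P, ∃ x ∈ H, (1 : ℕ) + y = p + x)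
    (c3 : ∀ y ∈ K1, ∃ p ∈ P, ∃ x ∈ H, (3 : ℕ) + y = p + x)
    (hP : P.card ≤ C) : 5 * 2 ^ t + P.card * Nat.card H < (P + P).card * Nat.card H := by
  classical
  have hh : 0 < 2 ^ t := by positivity
  have k12 : K1 ≤ K2 := le_of _ _ (by omega)
  have hr : C < Nat.card H := by
    by_contra hn
    have a1 := cover ⊤ K2 H P 0 le_top le_top c0
    have a2 : (fib ⊤ P 0).card ≤ C := (card_filter_le _ _).trans hP
    have := Nat.mul_le_mul a2 (not_lt.mp hn)
    omega
  obtain ⟨e, he, he'⟩ := card_pow H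
  have pos : ∀ (L : AddSubgroup (ZMod (2 ^ (u + 2 + t)))) j,
      2 ^ t ≤ (fib L P j).card * Nat.card H → (fib L P j).Nonempty := fun L j h => by
    rw [← card_pos]
    by_contra hn
    have : (fib L P j).card = 0 := by omega
    rw [this] at h
    omega
  rcases le_or_gt e t with h | h
  · have hr' : Nat.card H ≤ 2 ^ t := he' ▸ Nat.pow_le_pow_right (by norm_num) h
    have hk : H ≤ K2 := le_of _ _ (by omega)
    have a0 := cover K2 K2 H P 0 le_rfl hk c0
    have a1 := cover K2 K1 H P 1 k12 hk c1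
    have a3 := cover K2 K1 H P 3 k12 hk c3
    have n0 := pos K2 0 (by omega)
    have m := main_count K2 P C hP (gap K2 (by rw [k2, pow_add]; omega) _ hu) n0
      (pos _ _ (by omega)) (pos _ _ (by omega))
    have b0 : (fib K2 P 0).card < (fib K2 (P + P) 0).card := by
      by_contra hn
      have s : fib K2 P 0 + fib K2 P 0 ⊆ fib K2 (P + P) 0 := fun y hy => by
        obtain ⟨a, ha, b, hb, rfl⟩ := mem_add.mp hy
        simp only [fib, mem_filter, Nat.cast_zero, sub_zero] at ha hb ⊢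
        exact ⟨add_mem_add ha.1 hb.1, K2.add_mem ha.2 hb.2⟩
      have co := coset H (fib K2 P 0) ((card_le_card s).trans (not_lt.mp hn))
        (lt_of_le_of_lt ((card_filter_le _ _).trans hP) hr)
      obtain ⟨q, hq⟩ := n0
      have := cover ⊤ K2 H {q} 0 le_top le_top (fun y hy => by
        obtain ⟨p, hp, x, hx, e⟩ := c0 y hy
        have hp' : p ∈ fib K2 P 0 := by
          simp only [fib, mem_filter]
          refine ⟨hp, ?_⟩
          convert K2.sub_mem hy (hk hx) using 1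
          linear_combination -e
        exact ⟨q, by simp, p - q + x, H.add_mem (co p hp' q hq) hx, by linear_combination e⟩)
      have a2 : (fib ⊤ ({q} : Finset (ZMod (2 ^ (u + 2 + t)))) 0).card ≤ 1 :=
        (card_filter_le _ _).trans (by simp)
      have := Nat.mul_le_mul_right (Nat.card H) a2
      omega
    have := Nat.mul_le_mul_right (Nat.card H)
      (show 2 * (fib K2 P 0).card + 1 + (fib K2 P 3).card + P.card ≤ (P + P).card by omega)
    have h0 : 0 < Nat.card H := Nat.card_pos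
    nlinarith
  · have hr' : 2 * 2 ^ t ≤ Nat.card H := by
      rw [he', ← pow_succ']; exact Nat.pow_le_pow_right (by norm_num) h
    have hk : K2 ≤ H := le_of _ _ (by omega)
    rcases le_or_gt e (t + 2) with h' | h'
    · have a0 := cover H K2 H P 0 hk le_rfl c0
      have a1 := cover H K1 H P 1 (k12.trans hk) le_rfl c1
      have a3 := cover H K1 H P 3 (k12.trans hk) le_rfl c3
      have n0 := pos H 0 (by omega)
      have n3 := pos H 3 (by omega)
      have m := main_count H P C hP (gap H (he' ▸ Nat.pow_le_pow_right (by norm_num) h') _ hu) n0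
        (pos _ _ (by omega)) n3
      have b0 := fib_add H P 0 0 n0
      rw [← card_pos] at n0 n3
      have := Nat.mul_le_mul_right (Nat.card H) (show 3 + P.card ≤ (P + P).card by
        simp only [add_zero] at b0; omega)
      nlinarith
    · have hr'' : 8 * 2 ^ t ≤ Nat.card H := by
        rw [he', show 8 * 2 ^ t = 2 ^ (t + 3) by ring]; exact Nat.pow_le_pow_right (by norm_num) h'
      have : P.card < (P + P).card := by
        by_contra hn
        have co := coset H P (not_lt.mp hn) (by omega)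
        obtain ⟨p, hp, x, hx, e⟩ := c0 0 K2.zero_mem
        obtain ⟨q, hq, y, hy, e'⟩ := c1 0 K1.zero_mem
        have one : (1 : ZMod (2 ^ (u + 2 + t))) ∈ H := by
          convert H.add_mem (co q hq p hp) (H.sub_mem hy hx) using 1
          push_cast at e e'
          linear_combination e' - e
        apply hH
        rw [eq_top_iff]
        intro z _
        have := H.nsmul_mem one z.val
        simpa using this
      have := Nat.mul_le_mul_right (Nat.card H) (show 1 + P.card ≤ (P + P).card by omega)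
      nlinarith

theorem prog {u t : ℕ} (hu : 5 < 2 ^ u)
    (K2 H : AddSubgroup (ZMod (2 ^ (u + 2 + t))))
    (k2 : Nat.card K2 = 2 * 2 ^ t) (hH : Nat.card H < 2 * 2 ^ t)
    (P : Finset (ZMod (2 ^ (u + 2 + t)))) (hP : IsAP P)
    (c0 : ∀ y ∈ K2, ∃ p ∈ P, ∃ x ∈ H, (0 : ℕ) + y = p + x)
    (c1 : ∃ p ∈ P, ∃ x ∈ H, 1 = p + x) :
    5 * 2 ^ t + Nat.card H < P.card * Nat.card H := by
  obtain ⟨g, d, N, -, -, rfl⟩ := hP
  obtain ⟨e, -, he⟩ := card_pow H
  have het : e ≤ t := by
    rw [he, ← pow_succ'] at hH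
    have := (Nat.pow_lt_pow_iff_right (by norm_num)).mp hH
    omega
  obtain ⟨v, rfl⟩ := Nat.exists_eq_add_of_le het
  have two : (2 : ZMod (2 ^ (u + 2 + (e + v)))) ^ (u + 2 + (e + v)) = 0 := by
    exact_mod_cast ZMod.natCast_self (2 ^ (u + 2 + (e + v)))
  have half : (2 : ZMod (2 ^ (u + 2 + (e + v)))) ^ (u + 1 + (e + v)) ≠ 0 := fun h => by
    have := zero_iff (k := u + 2 + (e + v)) (u + 1 + (e + v)) (by omega) 1 (by simpa using h)
    rw [show u + 2 + (e + v) - (u + 1 + (e + v)) = 1 by omega] at this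
    norm_num at this
  have kill : ∀ x ∈ H, (2 : ZMod (2 ^ (u + 2 + (e + v)))) ^ e * x = 0 := fun x hx => by
    rw [mem_iff, he] at hx
    simpa using hx
  obtain ⟨p0, hp0, x0, hx0, e0⟩ := c0 0 K2.zero_mem
  obtain ⟨p1, hp1, x1, hx1, e1⟩ := c1
  obtain ⟨p2, hp2, x2, hx2, e2⟩ := c0 (2 ^ (u + 1 + v)) (by
    rw [mem_iff, k2]
    simp only [nsmul_eq_mul]
    push_cast
    linear_combination 2 ^ v * two)
  obtain ⟨i0, hi0, rfl⟩ := mem_image.mp hp0
  obtain ⟨i1, hi1, rfl⟩ := mem_image.mp hp1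
  obtain ⟨i2, hi2, rfl⟩ := mem_image.mp hp2
  have y0 := kill _ hx0
  have y1 := kill _ hx1
  have y2 := kill _ hx2
  push_cast at e0 e2
  have hd : IsUnit d := by
    rw [← ZMod.natCast_zmod_val d, ZMod.isUnit_iff_coprime]
    apply Nat.Coprime.pow_right
    rw [Nat.coprime_two_right]
    by_contra hn
    obtain ⟨c, hc⟩ := Nat.not_odd_iff_even.mp hn
    have hc' : d = c + c := by rw [← ZMod.natCast_zmod_val d, hc]; push_cast; rfl
    apply half
    rw [hc'] at e0 e1
    linear_combination 2 ^ (u + 1 + (e + v)) * (e1 - e0) + 2 ^ (u + 1 + v) * (y1 - y0) +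
      (i1 - i0) * c * two
  have canc : ∀ a (z : ℤ), (2 : ZMod (2 ^ (u + 2 + (e + v)))) ^ a * z * d = 0 →
      (2 : ZMod (2 ^ (u + 2 + (e + v)))) ^ a * z = 0 := fun a z h =>
    (hd.mul_left_eq_zero).mp h
  have d1 := zero_iff (e + 1) (by omega) _ (canc (e + 1) ((i2 : ℤ) - i0) (by
    push_cast
    linear_combination 2 ^ (e + 1) * (e0 - e2) + 2 * (y0 - y2) + two))
  rw [show u + 2 + (e + v) - (e + 1) = u + 1 + v by omega] at d1
  have ne : i2 ≠ i0 := fun h => half (by
    rw [h] at e2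
    linear_combination 2 ^ e * (e2 - e0) + (y2 - y0))
  have h3 := Int.le_of_dvd (a := 2 ^ (u + 1 + v)) (b := |(i2 : ℤ) - i0|) (abs_pos.mpr (by omega))
    ((dvd_abs _ _).mpr d1)
  have hN : 2 ^ (u + 1 + v) < N := by
    rw [mem_range] at hi0 hi2
    have : ((2 ^ (u + 1 + v) : ℕ) : ℤ) ≤ |(i2 : ℤ) - i0| := by exact_mod_cast h3
    rcases abs_cases ((i2 : ℤ) - i0) with h | h <;> omega
  have hc : 2 ^ (u + 1 + v) + 1 ≤
      ((range N).image fun i : ℕ => g + (i : ZMod (2 ^ (u + 2 + (e + v)))) * d).card := by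
    apply le_card_of_inj_on_range (fun i : ℕ => g + (i : ZMod (2 ^ (u + 2 + (e + v)))) * d)
      (fun i hi => mem_image.mpr ⟨i, mem_range.mpr (by omega), rfl⟩)
    intro i hi j hj h
    have := zero_iff 0 (by omega) _ (canc 0 ((i : ℤ) - j) (by push_cast; linear_combination h))
    by_contra hij
    have h4 := Int.le_of_dvd (a := 2 ^ (u + 2 + (e + v))) (b := |(i : ℤ) - j|)
      (abs_pos.mpr (by omega)) ((dvd_abs _ _).mpr this)
    have h5 : 2 ^ (u + 1 + v) < 2 ^ (u + 2 + (e + v)) := Nat.pow_lt_pow_right (by norm_num) (by omega)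
    have : ((2 ^ (u + 2 + (e + v)) : ℕ) : ℤ) ≤ |(i : ℤ) - j| := by exact_mod_cast h4
    rcases abs_cases ((i : ℤ) - j) with h | h <;> omega
  have := Nat.mul_le_mul_right (Nat.card H) hc
  rw [he] at this ⊢
  have q : 2 ^ (u + 1 + v) * 2 ^ e = 2 * 2 ^ u * 2 ^ (e + v) := by ring
  have : 0 < 2 ^ (e + v) := by positivity
  nlinarith

lemma all_parts :
    (∀ ε : ℝ, 0 < ε → ∃ C₁ C₂ : ℝ, 0 < C₁ ∧ 0 < C₂ ∧ ∀ n : ℕ, 0 < n → ∀ A : Finset (ZMod n),
      (A.card : ℝ) < C₁⁻¹ * n → ((A + A).card : ℝ) < (3 - ε) * A.card →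
      ∃ (P : Finset (ZMod n)) (H : AddSubgroup (ZMod n)), AB A P H ∧
        ((P + P).card : ℝ) / P.card ≤ ((A + A).card : ℝ) / A.card ∧
        ((P.card : ℝ) ≤ C₂ ∨ IsAP P)) ∧
    (∀ ε : ℝ, ε < 3 / 4 → ∀ C₁ C₂ : ℝ, 0 < C₁ → 0 < C₂ → ∃ n : ℕ, 0 < n ∧ ∃ A : Finset (ZMod n),
      (A.card : ℝ) < C₁⁻¹ * n ∧ ((A + A).card : ℝ) < (3 - ε) * A.card ∧
      ¬ ∃ (P : Finset (ZMod n)) (H : AddSubgroup (ZMod n)), AB A P H ∧ ((P.card : ℝ) ≤ C₂ ∨
        IsAP P ∧ ((P.card : ℝ) - 1) * Nat.card H ≤ ((A + A).card : ℝ) - A.card)) := by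
  classical
  constructor
  · intro ε _
    refine ⟨1, 1, one_pos, one_pos, fun n hn A h1 h2 => ?_⟩
    have : NeZero n := ⟨hn.ne'⟩
    have hA : A.Nonempty := by
      rw [nonempty_iff_ne_empty]; rintro rfl; simp at h2
    have a1 : 1 ≤ A.card := card_pos.mpr hA
    have hn2 : 2 ≤ n := by
      have : A.card < n := by simpa using h1
      omega
    have : Fact (1 < n) := ⟨hn2⟩
    have a2 : (A.card : ℝ) ≤ (A + A).card := by exact_mod_cast card_le_card_add_self
    have u : (univ + univ : Finset (ZMod n)) = univ := by simp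
    refine ⟨univ, ⊥, ⟨bot_ne_top, fun a _ => ⟨a, by simp, 0, by simp, by simp⟩, ?_⟩, ?_,
      Or.inr ⟨0, 1, n, one_ne_zero, hn2, ?_⟩⟩
    · rw [u]; simpa using a2
    · rw [u, div_self (by simp [hn.ne']), one_le_div (by exact_mod_cast a1)]; exact a2
    · symm
      rw [eq_univ_iff_forall]
      intro x
      exact mem_image.mpr ⟨x.val, mem_range.mpr x.val_lt, by simp⟩
  · intro ε hε C₁ C₂ h1 _
    obtain ⟨C, hC⟩ := exists_nat_ge (max 3 (max C₁ C₂))
    simp only [max_le_iff] at hC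
    have hC3 : 3 ≤ C := by exact_mod_cast hC.1
    obtain ⟨u, hu⟩ : ∃ u, 3 * C + 6 < 2 ^ u := ⟨_, Nat.lt_two_pow_self⟩
    obtain ⟨t, ht⟩ : ∃ t, C * C < 2 ^ t := ⟨_, Nat.lt_two_pow_self⟩
    have k1 := card_zm (k := u + 2 + t) (u + 2) t rfl
    have k2 := card_zm (k := u + 2 + t) (u + 1) (t + 1) (by omega)
    rw [pow_succ'  2 t] at k2
    generalize AddSubgroup.zmultiples ((2 ^ (u + 2) : ℕ) : ZMod (2 ^ (u + 2 + t))) = K1 at k1
    generalize AddSubgroup.zmultiples ((2 ^ (u + 1) : ℕ) : ZMod (2 ^ (u + 2 + t))) = K2 at k2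
    have k12 : K1 ≤ K2 := le_of _ _ (by omega)
    have gp := gap K2 (by rw [k2, pow_add]; omega) 3 (by omega)
    set A := fib K2 univ 0 ∪ (fib K1 univ 1 ∪ fib K1 univ 3) with hA
    have dj : ∀ (L L' : AddSubgroup (ZMod (2 ^ (u + 2 + t)))) i j, L ≤ K2 → L' ≤ K2 → i ≤ 3 →
        j ≤ 3 → i ≠ j → Disjoint (fib L univ i) (fib L' univ j) := fun L L' i j a b c d e =>
      disjoint_left.mpr fun x hx hx' => gp i c j d e (by
        simp only [fib, mem_filter] at hx hx'
        convert K2.sub_mem (b hx'.2) (a hx.2) using 1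
        ring)
    have cA : A.card = 4 * 2 ^ t := by
      rw [hA, card_union_of_disjoint (disjoint_union_right.mpr
        ⟨dj _ _ _ _ le_rfl k12 (by omega) (by omega) (by omega),
          dj _ _ _ _ le_rfl k12 (by omega) (by omega) (by omega)⟩),
        card_union_of_disjoint (dj _ _ _ _ k12 k12 (by omega) (by omega) (by omega))]
      simp only [card_fib, k1, k2]
      ring
    have cAA : (A + A).card ≤ 9 * 2 ^ t := by
      have s : A + A ⊆ ({0, 1, 3} : Finset ℕ).biUnion (fib K2 univ) ∪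
          ({2, 4, 6} : Finset ℕ).biUnion (fib K1 univ) := fun y hy => by
        obtain ⟨a, ha, b, hb, rfl⟩ := mem_add.mp hy
        have ad : ∀ (L : AddSubgroup (ZMod (2 ^ (u + 2 + t)))) (i j : ℕ), a - i ∈ L → b - j ∈ L →
            a + b - ((i + j : ℕ) : ZMod _) ∈ L := fun L i j h h' => by
          convert L.add_mem h h' using 1
          push_cast; ring
        simp only [hA, fib, mem_union, mem_filter, mem_univ, true_and, mem_biUnion] at ha hb ⊢
        rcases ha with ha | ha | ha <;> rcases hb with hb | hb | hb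
        · exact Or.inl ⟨_, by simp, ad _ _ _ ha hb⟩
        · exact Or.inl ⟨_, by simp, ad _ _ _ ha (k12 hb)⟩
        · exact Or.inl ⟨_, by simp, ad _ _ _ ha (k12 hb)⟩
        · exact Or.inl ⟨_, by simp, ad _ _ _ (k12 ha) hb⟩
        · exact Or.inr ⟨_, by simp, ad _ _ _ ha hb⟩
        · exact Or.inr ⟨_, by simp, ad _ _ _ ha hb⟩
        · exact Or.inl ⟨_, by simp, ad _ _ _ (k12 ha) hb⟩
        · exact Or.inr ⟨_, by simp, ad _ _ _ ha hb⟩
        · exact Or.inr ⟨_, by simp, ad _ _ _ ha hb⟩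
      have b1 := card_biUnion_le (s := ({0, 1, 3} : Finset ℕ)) (t := fib K2 univ)
      have b2 := card_biUnion_le (s := ({2, 4, 6} : Finset ℕ)) (t := fib K1 univ)
      have q1 : ({0, 1, 3} : Finset ℕ).card = 3 := rfl
      have q2 : ({2, 4, 6} : Finset ℕ).card = 3 := rfl
      simp only [card_fib, k1, k2, sum_const, q1, q2, smul_eq_mul] at b1 b2
      have := (card_le_card s).trans (card_union_le _ _)
      omega
    have cR : ((A + A).card : ℝ) ≤ 9 * 2 ^ t := by exact_mod_cast cAA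
    have cR' : (A.card : ℝ) = 4 * 2 ^ t := by exact_mod_cast cA
    have hp : (0 : ℝ) < 2 ^ t := by positivity
    refine ⟨2 ^ (u + 2 + t), by positivity, A, ?_, by rw [cR']; nlinarith, ?_⟩
    · rw [cR', lt_inv_mul_iff₀ h1]
      have : (3 * C + 6 : ℝ) < 2 ^ u := by exact_mod_cast hu
      push_cast
      rw [show (2 : ℝ) ^ (u + 2 + t) = 2 ^ u * (4 * 2 ^ t) by ring]
      apply mul_lt_mul_of_pos_right _ (by positivity)
      linarith [hC.1, hC.2.1]
    rintro ⟨P, H, ⟨hH, ha, hb⟩, hd⟩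
    have c0 : ∀ y ∈ K2, ∃ p ∈ P, ∃ x ∈ H, (0 : ℕ) + y = p + x := fun y hy =>
      ha _ (by simp [hA, fib, hy])
    have c1 : ∀ y ∈ K1, ∃ p ∈ P, ∃ x ∈ H, (1 : ℕ) + y = p + x := fun y hy =>
      ha _ (by simp [hA, fib, hy])
    have c3 : ∀ y ∈ K1, ∃ p ∈ P, ∃ x ∈ H, (3 : ℕ) + y = p + x := fun y hy =>
      ha _ (by simp [hA, fib, hy])
    have hP : ¬ P.card ≤ C := fun h => by
      have := bounded hu ht K1 K2 H k1 k2 hH P c0 c1 c3 h
      have : (5 * 2 ^ t + P.card * Nat.card H : ℝ) < (P + P).card * Nat.card H := by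
        exact_mod_cast this
      linarith
    rcases hd with hd | ⟨hd, hd'⟩
    · exact hP (by exact_mod_cast hd.trans hC.2.2)
    have hn : P.card * Nat.card H ≤ 5 * 2 ^ t + Nat.card H := by
      have : (P.card * Nat.card H : ℝ) ≤ 5 * 2 ^ t + Nat.card H := by linarith
      exact_mod_cast this
    by_cases hr : Nat.card H < 2 * 2 ^ t
    · have := prog (by omega) K2 H k2 hr P hd c0 (by simpa using c1 0 K1.zero_mem)
      omega
    · have := Nat.mul_le_mul_right (Nat.card H) (show 4 ≤ P.card by omega)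
      have : 0 < 2 ^ t := by positivity
      omega

theorem result :
    ∀ ε : ℝ, ε < 3 / 4 → ∀ C₁ C₂ : ℝ, 0 < C₁ → 0 < C₂ → ∃ n : ℕ, 0 < n ∧ ∃ A : Finset (ZMod n),
      (A.card : ℝ) < C₁⁻¹ * n ∧ ((A + A).card : ℝ) < (3 - ε) * A.card ∧
      ¬ ∃ (P : Finset (ZMod n)) (H : AddSubgroup (ZMod n)), AB A P H ∧ ((P.card : ℝ) ≤ C₂ ∨
        IsAP P ∧ ((P.card : ℝ) - 1) * Nat.card H ≤ ((A + A).card : ℝ) - A.card) :=
  all_parts.2

end Pool.Agent.Results.MP_09e095_co.Wrap
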