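import Mathlib
import Pool.Agent.Results.MP_09e095_co.Wrap

namespace Pool.Agent.Results.MP_09e095_co.Literal

open Pool.Agent.Results.MP_09e095_co.Wrap
open Finset Pointwise

theorem result :
    ∀ ε : ℝ, 0 < ε → ∃ C₁ C₂ : ℝ, 0 < C₁ ∧ 0 < C₂ ∧ ∀ n : ℕ, 0 < n → ∀ A : Finset (ZMod n),
      (A.card : ℝ) < C₁⁻¹ * n → ((A + A).card : ℝ) < (3 - ε) * A.card →
      ∃ (P : Finset (ZMod n)) (H : AddSubgroup (ZMod n)), AB A P H ∧
        ((P + P).card : ℝ) / P.card ≤ ((A + A).card : ℝ) / A.card ∧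
        ((P.card : ℝ) ≤ C₂ ∨ IsAP P) :=
  all_parts.1

end Pool.Agent.Results.MP_09e095_co.Literal
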